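import Pool.Agent.helper83.ORE.SpecDE

/-! Row DSB: intermediate fields of extensions of finite fields. -/

set_option autoImplicit false

namespace Pool.Agent.ORE

open Module Pool.Agent.GS

theorem DSB : DSB_stmt := by
  intro F K _ _ _ _ _ _ d n h
  have hpos : 0 < finrank F K := finrank_pos
  have hd : d ≠ 0 := by
    rintro rfl
    rw [zero_mul] at h
    omega
  have hn : n ≠ 0 := by
    rintro rfl
    rw [mul_zero] at h
    omega
  have : IsGalois F K := inferInstance
  have hc : IsCyclic (K ≃ₐ[F] K) := inferInstance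
  obtain ⟨g, hg⟩ := IsCyclic.exists_ofOrder_eq_natCard (α := (K ≃ₐ[F] K))
  have hcard : Nat.card (K ≃ₐ[F] K) = d * n := by
    rw [IsGalois.card_aut_eq_finrank F K, h]
  rw [hcard] at hg
  have hord : orderOf (g ^ d) = n := by
    rw [orderOf_pow' g hd, hg, Nat.gcd_eq_right (Dvd.intro n rfl),
      Nat.mul_div_cancel_left n (Nat.pos_of_ne_zero hd)]
  refine ⟨IntermediateField.fixedField (Subgroup.zpowers (g ^ d)), ?_⟩
  have h1 : finrank (IntermediateField.fixedField (Subgroup.zpowers (g ^ d))) K = n := by
    rw [IntermediateField.finrank_fixedField_eq_card, Nat.card_zpowers, hord]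
  have h2 := finrank_mul_finrank F
    (IntermediateField.fixedField (Subgroup.zpowers (g ^ d))) K
  rw [h1, h] at h2
  exact Nat.eq_of_mul_eq_mul_right (Nat.pos_of_ne_zero hn) h2

end Pool.Agent.ORE
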