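import Pool.Agent.helper53.ORE.Spec

/-! Row SGQ: Siegel elements. -/

set_option autoImplicit false

namespace Pool.Agent.ORE

open Module Pool.Agent.GS

theorem SGQ_ns {F V : Type} [Field F] [Finite F] [AddCommGroup V] [Module F V]
    [FiniteDimensional F V] (rp : RP_stmt) (Q : QuadraticForm F V) (h2 : (2 : F) = 0)
    (hN : Nd Q) (hn : 8 ≤ finrank F V) (u d : V) (hu : Q u = 0) (hud : pb Q u d = 0)
    (hd : Q d ≠ 0) : sq Q u d ∈ OmQ Q := by
  rw [sq_eq_rq h2 hu hud hd]
  refine rp Q h2 hN hn d (d + Q d • u) hd ?_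
  have h3 : Q (d + Q d • u) = Q d := by
    rw [Q_add, Q_smul, hu, map_smul, pb_symm, hud, smul_zero, mul_zero, add_zero, add_zero]
  rw [h3]
  exact hd

theorem SGQ (rp : RP_stmt) (ns : NSV_stmt) : SGQ_stmt := by
  intro F V _ _ _ _ _ Q h2 hN hn u d hu hud
  by_cases hd : Q d = 0
  · obtain ⟨e, he, hQe⟩ := ns Q h2 hN 2 ![u, d] (by omega)
    have e1 : pb Q e u = 0 := he 0
    have e2 : pb Q e d = 0 := he 1
    have e1' : pb Q u e = 0 := by rw [pb_symm]; exact e1
    have h3 : Q (d + e) = 1 := by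
      rw [Q_add, hd, hQe, pb_symm, e2, zero_add, add_zero]
    have h4 : pb Q u (d + e) = 0 := by rw [map_add, hud, e1', add_zero]
    have a1 := SGQ_ns rp Q h2 hN hn u (d + e) hu h4 (by rw [h3]; exact one_ne_zero)
    have a2 := SGQ_ns rp Q h2 hN hn u e hu e1' (by rw [hQe]; exact one_ne_zero)
    have h5 : pb Q (d + e) e = 0 := by
      rw [map_add, LinearMap.add_apply, pb_self2 h2, add_zero, pb_symm, e2]
    have h6 : sq Q u (d + e) * sq Q u e = sq Q u d := by
      rw [sq_add h2 hu h4 e1']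
      congr 1
      rw [add_assoc, addV h2, add_zero]
    rw [← h6]
    exact (OmQ Q).mul_mem a1 a2
  · exact SGQ_ns rp Q h2 hN hn u d hu hud hd

end Pool.Agent.ORE
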